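import Mathlib

/-!
# The numerical part
-/

namespace Pool.Agent.J4H24.TK

open Real

/-- **The asymptotic form.** -/
lemma asym2 {h k S G T μ : ℕ} (hh : 10 ^ 4 ≤ h) (hk : h ^ 3 ≤ k)
    (hS : (S : ℝ) < (2 : ℝ) ^ ((1 / 40 : ℝ) * √((h : ℝ) * Real.log k)))
    (H : ∀ p m : ℕ, 1 ≤ p → 6 * p < h → S ≤ 2 ^ m →
      G * k * k ^ p ≤ T * (μ * k ^ p + k ^ 2 *
        (((h + 1) ^ 2 * (m + 2)) ^ p * (2 ^ m * 2 ^ m) ^ (m + 2)))) :
    (G : ℝ) ≤ ((μ : ℝ) / k + (k : ℝ) ^ (-((h : ℝ) / 100))) * T := by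
  obtain ⟨p, hp1, hpM, hp2⟩ : ∃ p : ℕ, 1 ≤ p ∧ 6 * p < h ∧ h ≤ 7 * p := by
    refine ⟨(h - 1) / 6, ?_, ?_, ?_⟩ <;> omega
  set m := Nat.clog 2 S with hm
  have hSm : S ≤ 2 ^ m := Nat.le_pow_clog (by norm_num) S
  have key := H p m hp1 hpM hSm
  have hh' : (10 : ℝ) ^ 4 ≤ h := by exact_mod_cast hh
  have hh0 : (0 : ℝ) < h := lt_of_lt_of_le (by norm_num) hh'
  have hkh : (h : ℝ) ^ 3 ≤ k := by exact_mod_cast hk
  have hk0 : (0 : ℝ) < k := lt_of_lt_of_le (by positivity) hkh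
  have hlogk : 3 * Real.log h ≤ Real.log k := by
    have := Real.log_le_log (by positivity) hkh
    rw [Real.log_pow] at this
    exact_mod_cast this
  have hlogh1 : 1 ≤ Real.log h := by
    rw [Real.le_log_iff_exp_le hh0]
    have := Real.exp_one_lt_d9
    have h2 : (10 : ℝ) ^ 4 ≥ 2.7182818286 := by norm_num
    linarith
  have hlogk1 : 3 ≤ Real.log k := by linarith
  have hlog2 := Real.log_two_lt_d9
  have hlog2' := Real.log_two_gt_d9
  have hp0 : (0 : ℝ) < p := by exact_mod_cast hp1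
  have hph : (6 : ℝ) * p ≤ h := by exact_mod_cast hpM.le
  have hph2 : (h : ℝ) ≤ 7 * p := by exact_mod_cast hp2
  set l : ℝ := Real.log k with hl
  -- log (h+1)
  have hlogh : Real.log ((h : ℝ) + 1) ≤ Real.log h + 1 / h := by
    have e : (h : ℝ) + 1 = h * (1 + 1 / h) := by field_simp
    have h1 : 0 < 1 + 1 / (h : ℝ) := by positivity
    rw [e, Real.log_mul (by positivity) (ne_of_gt h1)]
    have := Real.log_le_sub_one_of_pos h1
    linarith
  have hyl0 : 0 ≤ (h : ℝ) * l := mul_nonneg (by linarith) (by linarith)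
  set X : ℝ := √((h : ℝ) * l) with hX
  have hX2 : X ^ 2 = h * l := Real.sq_sqrt hyl0
  have hX0 : 0 ≤ X := Real.sqrt_nonneg _
  have hXbig : 120 ≤ X := by
    have h2 : (120 : ℝ) ^ 2 ≤ X ^ 2 := by
      rw [hX2]
      have h3 : (10 : ℝ) ^ 4 * 3 ≤ h * l := mul_le_mul hh' hlogk1 (by norm_num) (by linarith)
      refine le_trans (by norm_num) h3
    exact (abs_le_of_sq_le_sq' h2 hX0).2
  -- m
  have hmX : (m : ℝ) + 2 ≤ X / 20 := by
    rcases Nat.lt_or_ge 1 S with h1 | h1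
    · have h2 := Nat.pow_pred_clog_lt_self (b := 2) (by norm_num) h1
      rw [Nat.pred_eq_sub_one, ← hm] at h2
      have hm1 : 1 ≤ m := Nat.clog_pos (by norm_num) h1
      have h3 : ((2 : ℝ)) ^ ((m : ℝ) - 1) < (2 : ℝ) ^ ((1 / 40 : ℝ) * X) := by
        refine lt_of_le_of_lt ?_ hS
        have h4 : ((2 : ℝ)) ^ (m - 1) ≤ S := by exact_mod_cast h2.le
        have h5 : (2 : ℝ) ^ ((m : ℝ) - 1) = (2 : ℝ) ^ (m - 1) := by
          rw [← Real.rpow_natCast, Nat.cast_sub hm1]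
          norm_num
        rw [h5]; exact h4
      have h6 := (Real.rpow_lt_rpow_left_iff (by norm_num)).mp h3
      linarith
    · have : m = 0 := by rw [hm]; exact Nat.clog_of_right_le_one h1 2
      rw [this]
      push_cast
      linarith
  have hm0 : (0 : ℝ) ≤ m := by positivity
  have hm2 : ((m : ℝ) + 2) ^ 2 ≤ h * l / 400 := by
    have h1 : ((m : ℝ) + 2) ^ 2 ≤ (X / 20) ^ 2 := pow_le_pow_left₀ (by positivity) hmX 2
    have h2 : (X / 20) ^ 2 = h * l / 400 := by rw [div_pow, hX2]; norm_num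
    linarith
  -- log (m+2)
  have hlogm : Real.log ((m : ℝ) + 2) ≤ 5 / 24 * l := by
    have h5 : (h : ℝ) ≤ (k : ℝ) ^ (1 / 3 : ℝ) := by
      have h6 : ((h : ℝ) ^ 3) ^ (1 / 3 : ℝ) ≤ (k : ℝ) ^ (1 / 3 : ℝ) :=
        Real.rpow_le_rpow (by positivity) hkh (by norm_num)
      refine le_trans (le_of_eq ?_) h6
      rw [← Real.rpow_natCast, ← Real.rpow_mul hh0.le]
      norm_num
    have h7 : l ≤ 12 * (k : ℝ) ^ (1 / 12 : ℝ) := by
      have h8 := Real.log_le_sub_one_of_pos (x := (k : ℝ) ^ (1 / 12 : ℝ)) (by positivity)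
      rw [Real.log_rpow hk0] at h8
      linarith
    have h9 : (k : ℝ) ^ (1 / 3 : ℝ) * (k : ℝ) ^ (1 / 12 : ℝ) = (k : ℝ) ^ (5 / 12 : ℝ) := by
      rw [← Real.rpow_add hk0]; norm_num
    have h10 : (h : ℝ) * l ≤ (k : ℝ) ^ (1 / 3 : ℝ) * (12 * (k : ℝ) ^ (1 / 12 : ℝ)) :=
      mul_le_mul h5 h7 (by linarith) (by positivity)
    have h11 : ((m : ℝ) + 2) ^ 2 ≤ (k : ℝ) ^ (5 / 12 : ℝ) := by
      have h12 : (0 : ℝ) < (k : ℝ) ^ (5 / 12 : ℝ) := by positivity
      have h13 : (k : ℝ) ^ (1 / 3 : ℝ) * (12 * (k : ℝ) ^ (1 / 12 : ℝ)) =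
          12 * (k : ℝ) ^ (5 / 12 : ℝ) := by rw [← h9]; ring
      linarith
    have h14 := Real.log_le_log (by positivity) h11
    rw [Real.log_pow, Real.log_rpow hk0] at h14
    push_cast at h14
    linarith
  -- the error term
  set D : ℝ := (((h : ℝ) + 1) ^ 2 * ((m : ℝ) + 2)) ^ p * ((2 : ℝ) ^ m * 2 ^ m) ^ (m + 2) with hD
  have hD0 : 0 < D := by positivity
  have hlogD : Real.log D = p * (2 * Real.log ((h : ℝ) + 1) + Real.log ((m : ℝ) + 2)) +
      (m + 2) * (2 * m * Real.log 2) := by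
    rw [hD, Real.log_mul (by positivity) (by positivity), Real.log_pow, Real.log_pow,
      Real.log_mul (by positivity) (by positivity), Real.log_pow,
      Real.log_mul (by positivity) (by positivity), Real.log_pow]
    push_cast
    ring
  have hA : (p : ℝ) * (2 * Real.log ((h : ℝ) + 1) + Real.log ((m : ℝ) + 2)) ≤
      7 / 8 * (p * l) + 1 := by
    have h1 : (p : ℝ) * (2 * Real.log ((h : ℝ) + 1) + Real.log ((m : ℝ) + 2)) ≤
        p * (7 / 8 * l + 2 / h) := by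
      apply mul_le_mul_of_nonneg_left _ hp0.le
      have h2 : (2 : ℝ) / h = 2 * (1 / h) := by ring
      rw [h2]
      linarith
    have h3 : (p : ℝ) * (2 / h) ≤ 1 := by
      rw [← mul_div_assoc, div_le_one hh0]
      linarith
    calc _ ≤ p * (7 / 8 * l + 2 / h) := h1
      _ = 7 / 8 * (p * l) + p * (2 / h) := by ring
      _ ≤ _ := by linarith
  have hB : ((m : ℝ) + 2) * (2 * m * Real.log 2) ≤ 7 / 5 * (h * l / 400) := by
    have h1 : ((m : ℝ) + 2) * (2 * m * Real.log 2) = (2 * Real.log 2) * (((m : ℝ) + 2) * m) := by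
      ring
    have h2 : ((m : ℝ) + 2) * m ≤ h * l / 400 := by nlinarith
    rw [h1]
    exact mul_le_mul (by linarith) h2 (by positivity) (by norm_num)
  have hC : l + Real.log D - p * l ≤ -((h : ℝ) / 100) * l := by
    have h1 : (h : ℝ) * l ≤ 7 * (p * l) := by
      have := mul_le_mul_of_nonneg_right hph2 (show (0 : ℝ) ≤ l by linarith)
      linarith
    have h2 : 10 ^ 4 * l ≤ h * l := mul_le_mul_of_nonneg_right hh' (by linarith)
    have h3 : -((h : ℝ) / 100) * l = -(h * l) / 100 := by ring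
    rw [h3, hlogD]
    linarith
  have hE : (k : ℝ) * D / (k : ℝ) ^ p ≤ (k : ℝ) ^ (-((h : ℝ) / 100)) := by
    have h1 : 0 < (k : ℝ) * D / (k : ℝ) ^ p := by positivity
    rw [← Real.log_le_log_iff h1 (by positivity), Real.log_div (by positivity) (by positivity),
      Real.log_mul (by positivity) (by positivity), Real.log_pow, Real.log_rpow hk0]
    exact hC
  have keyR : (G : ℝ) * k * (k : ℝ) ^ p ≤ T * (μ * (k : ℝ) ^ p + (k : ℝ) ^ 2 * D) := by
    rw [hD]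
    exact_mod_cast key
  have hF : (G : ℝ) ≤ T * (μ / k + (k : ℝ) * D / (k : ℝ) ^ p) := by
    have h1 : (0 : ℝ) < k * (k : ℝ) ^ p := by positivity
    have h2 : (T : ℝ) * (μ * (k : ℝ) ^ p + (k : ℝ) ^ 2 * D) =
        (T * (μ / k + (k : ℝ) * D / (k : ℝ) ^ p)) * (k * (k : ℝ) ^ p) := by
      field_simp
    rw [h2, mul_assoc] at keyR
    exact le_of_mul_le_mul_right keyR h1
  calc (G : ℝ) ≤ T * (μ / k + (k : ℝ) * D / (k : ℝ) ^ p) := hF
    _ ≤ T * (μ / k + (k : ℝ) ^ (-((h : ℝ) / 100))) := by gcongr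
    _ = _ := by ring

end Pool.Agent.J4H24.TK
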