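import Pool.Agent.J4H24.TH.Pyr

/-!
# A linear pebbling bound for pyramids

The hiding sets `U` are measured by `max_j (j + 2 |U_{≥ j}|)` as in Klawe's theorem. A hiding set is
compressed on the intervals of levels between which no hidden node and its hiding set cross.
-/

namespace Pool.Agent.J4H24.TK

open Pool.Agent.J4H24.TH

lemma keep2 {S : Finset (ℕ × ℕ)} {m : ℕ} :
    ∀ i j, m ≤ fh S i j → blk S i j → blk (S.filter (fun v => m ≤ v.1 ∧ v.1 ≤ i)) i j
  | 0, j => fun h0 H => Finset.mem_filter.mpr ⟨H, h0, le_rfl⟩
  | i + 1, j => fun h0 H => by
      by_cases hm : (i + 1, j) ∈ S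
      · exact Or.inl (Finset.mem_filter.mpr ⟨hm, h0.trans (fh_le _ _), le_rfl⟩)
      · have e : fh S (i + 1) j = min (fh S i j) (fh S i (j + 1)) := by
          rw [fh]; simp [hm]
        rw [e] at h0
        have hsub : S.filter (fun v => m ≤ v.1 ∧ v.1 ≤ i) ⊆
            S.filter (fun v => m ≤ v.1 ∧ v.1 ≤ i + 1) := by
          intro v hv
          obtain ⟨a, b, c⟩ := Finset.mem_filter.mp hv
          exact Finset.mem_filter.mpr ⟨a, b, by omega⟩
        rcases H with H | H
        · exact absurd H hm
        · exact Or.inr ⟨blk_mono hsub _ _ (keep2 i j (h0.trans (min_le_left _ _)) H.1),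
            blk_mono hsub _ _ (keep2 i (j + 1) (h0.trans (min_le_right _ _)) H.2)⟩

/-- The path to the least first hit. -/
lemma path_down {S : Finset (ℕ × ℕ)} :
    ∀ i j, blk S i j → ∀ l, fh S i j ≤ l → l ≤ i → ∃ j', blk S l j' ∧ fh S l j' = fh S i j
  | 0, j => fun H l _ h2 => ⟨j, by
      have : l = 0 := by omega
      subst this
      exact ⟨H, rfl⟩⟩
  | i + 1, j => fun H l h1 h2 => by
      rcases Nat.lt_or_ge i l with hl | hl
      · have : l = i + 1 := by omega
        subst this
        exact ⟨j, H, rfl⟩
      · by_cases hm : (i + 1, j) ∈ S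
        · have e : fh S (i + 1) j = i + 1 := by rw [fh]; simp [hm]
          omega
        · have e : fh S (i + 1) j = min (fh S i j) (fh S i (j + 1)) := by
            rw [fh]; simp [hm]
          rcases H with H | H
          · exact absurd H hm
          · rcases le_total (fh S i j) (fh S i (j + 1)) with hle | hle
            · rw [e, min_eq_left hle] at h1 ⊢
              exact path_down i j H.1 l h1 hl
            · rw [e, min_eq_right hle] at h1 ⊢
              exact path_down i (j + 1) H.2 l h1 hl

lemma cnt_low {S : Finset (ℕ × ℕ)} {i j : ℕ} (H : blk S i j) {l : ℕ} (h1 : fh S i j ≤ l)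
    (h2 : l ≤ i) :
    l + 1 ≤ (S.filter (fun v => fh S i j ≤ v.1 ∧ v.1 ≤ l)).card + fh S i j := by
  obtain ⟨j', hb, hf⟩ := path_down i j H l h1 h2
  have h3 := cnt_tri l j' hb
  rw [hf] at h3
  have h4 : (tri S l j' (fh S i j)).card ≤
      (S.filter (fun v => fh S i j ≤ v.1 ∧ v.1 ≤ l)).card := by
    apply Finset.card_le_card
    intro v hv
    obtain ⟨a, b, c, d⟩ := Finset.mem_filter.mp hv
    exact Finset.mem_filter.mpr ⟨a, b, by omega⟩
  omega

/-- The measure condition. -/
def Mes (p : ℕ) (U : Finset (ℕ × ℕ)) : Prop :=
  ∀ j, (U.filter (fun v => j ≤ v.1)).Nonempty →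
    j + 2 * (U.filter (fun v => j ≤ v.1)).card ≤ 6 * p + 2

lemma compress {p : ℕ} {U W B : Finset (ℕ × ℕ)} (hU : Mes p U)
    (hW : W.card ≤ p) (hB : B.card ≤ p) (hb : ∀ v ∈ B, blk (U ∪ W) v.1 v.2) :
    ∃ U' : Finset (ℕ × ℕ), Mes p U' ∧ U'.card ≤ 3 * p ∧ ∀ v ∈ B, blk (U' ∪ W) v.1 v.2 := by
  classical
  set S := U ∪ W with hS
  set m : ℕ × ℕ → ℕ := fun v => fh S v.1 v.2 with hm
  have hmle : ∀ v, m v ≤ v.1 := fun v => fh_le _ _
  -- the invariant
  let P : ℕ → Prop := fun t => (∀ v ∈ B, m v < t → v.1 < t) ∧ ∃ U' : Finset (ℕ × ℕ),
    (∀ x ∈ U', t ≤ x.1) ∧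
    U'.card ≤ 2 * (B.filter (fun v => t ≤ v.1)).card + (W.filter (fun v => t ≤ v.1)).card ∧
    U'.card ≤ (U.filter (fun v => t ≤ v.1)).card ∧
    (∀ j, t ≤ j → (U'.filter (fun v => j ≤ v.1)).Nonempty →
      j + 2 * (U'.filter (fun v => j ≤ v.1)).card ≤ 6 * p + 2) ∧
    ∀ v ∈ B, t ≤ v.1 → blk (U' ∪ W) v.1 v.2
  have hstep : ∀ t, 0 < t → P t → ∃ t' < t, P t' := by
    rintro t ht ⟨hgt, U', hU1, hU2, hU3, hU4, hU5⟩
    -- the next good level
    have hex : ∃ t', t' < t ∧ (∀ v ∈ B, m v < t' → v.1 < t') := ⟨0, ht, by intro v _ h; omega⟩
    have hfin : ∃ t', (t' < t ∧ (∀ v ∈ B, m v < t' → v.1 < t')) ∧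
        ∀ s, (s < t ∧ (∀ v ∈ B, m v < s → v.1 < s)) → s ≤ t' := by
      have hne : ((Finset.range t).filter (fun s => ∀ v ∈ B, m v < s → v.1 < s)).Nonempty := by
        obtain ⟨s, h1, h2⟩ := hex
        exact ⟨s, Finset.mem_filter.mpr ⟨Finset.mem_range.mpr h1, h2⟩⟩
      refine ⟨Finset.max' _ hne, ?_, ?_⟩
      · have := Finset.mem_filter.mp (Finset.max'_mem _ hne)
        exact ⟨Finset.mem_range.mp this.1, this.2⟩
      · intro s hs
        exact Finset.le_max' _ _ (Finset.mem_filter.mpr ⟨Finset.mem_range.mpr hs.1, hs.2⟩)
    obtain ⟨t', ⟨ht', hgt'⟩, hmax⟩ := hfin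
    refine ⟨t', ht', hgt', ?_⟩
    -- levels
    set Ui := U.filter (fun v => t' ≤ v.1 ∧ v.1 < t) with hUi
    set Wi := W.filter (fun v => t' ≤ v.1 ∧ v.1 < t) with hWi
    set Bi := B.filter (fun v => t' ≤ v.1 ∧ v.1 < t) with hBi
    have split : ∀ X : Finset (ℕ × ℕ), (X.filter (fun v => t' ≤ v.1 ∧ v.1 < t)).card +
        (X.filter (fun v => t ≤ v.1)).card = (X.filter (fun v => t' ≤ v.1)).card := by
      intro X
      rw [← Finset.card_union_of_disjoint]
      · congr 1
        ext v
        simp only [Finset.mem_union, Finset.mem_filter]
        constructor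
        · rintro (⟨a, b, c⟩ | ⟨a, b⟩)
          · exact ⟨a, b⟩
          · exact ⟨a, by omega⟩
        · rintro ⟨a, b⟩
          rcases Nat.lt_or_ge v.1 t with h | h
          · exact Or.inl ⟨a, b, h⟩
          · exact Or.inr ⟨a, h⟩
      · rw [Finset.disjoint_left]
        intro v hv hv'
        have h1 := (Finset.mem_filter.mp hv).2.2
        have h2 := (Finset.mem_filter.mp hv').2
        omega
    have sU := split U
    have sW := split W
    have sB := split B
    rw [← hUi] at sU
    rw [← hWi] at sW
    rw [← hBi] at sB
    by_cases hsmall : Ui.card ≤ 2 * Bi.card + Wi.card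
    · -- keep
      refine ⟨Ui ∪ U', ?_, ?_, ?_, ?_, ?_⟩
      · intro x hx
        rcases Finset.mem_union.mp hx with hx | hx
        · exact (Finset.mem_filter.mp hx).2.1
        · have := hU1 x hx; omega
      · have := Finset.card_union_le Ui U'
        omega
      · have := Finset.card_union_le Ui U'
        omega
      · intro j hj hne
        rcases Nat.lt_or_ge j t with hjt | hjt
        · have h1 : ((Ui ∪ U').filter (fun v => j ≤ v.1)).card ≤
              (U.filter (fun v => j ≤ v.1)).card := by
            have h2 : ((Ui ∪ U').filter (fun v => j ≤ v.1)).card ≤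
                (U.filter (fun v => j ≤ v.1 ∧ v.1 < t)).card + U'.card := by
              rw [Finset.filter_union]
              refine (Finset.card_union_le _ _).trans ?_
              apply Nat.add_le_add
              · apply Finset.card_le_card
                intro v hv
                obtain ⟨a, b⟩ := Finset.mem_filter.mp hv
                obtain ⟨c, d, e⟩ := Finset.mem_filter.mp a
                exact Finset.mem_filter.mpr ⟨c, b, e⟩
              · exact Finset.card_le_card (Finset.filter_subset _ _)
            have h3 : (U.filter (fun v => j ≤ v.1 ∧ v.1 < t)).card +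
                (U.filter (fun v => t ≤ v.1)).card ≤ (U.filter (fun v => j ≤ v.1)).card := by
              rw [← Finset.card_union_of_disjoint]
              · apply Finset.card_le_card
                intro v hv
                rcases Finset.mem_union.mp hv with hv | hv
                · obtain ⟨a, b, c⟩ := Finset.mem_filter.mp hv
                  exact Finset.mem_filter.mpr ⟨a, b⟩
                · obtain ⟨a, b⟩ := Finset.mem_filter.mp hv
                  exact Finset.mem_filter.mpr ⟨a, by omega⟩
              · rw [Finset.disjoint_left]
                intro v hv hv'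
                have h1 := (Finset.mem_filter.mp hv).2.2
                have h2 := (Finset.mem_filter.mp hv').2
                omega
            omega
          have h0 : 0 < ((Ui ∪ U').filter (fun v => j ≤ v.1)).card := Finset.card_pos.mpr hne
          have h4 := hU j (Finset.card_pos.mp (by omega))
          omega
        · have h1 : (Ui ∪ U').filter (fun v => j ≤ v.1) ⊆ U'.filter (fun v => j ≤ v.1) := by
            intro v hv
            obtain ⟨a, b⟩ := Finset.mem_filter.mp hv
            rcases Finset.mem_union.mp a with a | a
            · have := (Finset.mem_filter.mp a).2.2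
              omega
            · exact Finset.mem_filter.mpr ⟨a, b⟩
          have h2 := hU4 j hjt (hne.mono h1)
          have h3 := Finset.card_le_card h1
          omega
      · intro v hv hvt
        rcases Nat.lt_or_ge v.1 t with h | h
        · have h1 : t' ≤ m v := by
            by_contra hcon
            have := hgt' v hv (by omega)
            omega
          have h2 := keep2 (m := m v) v.1 v.2 le_rfl (hb v hv)
          refine blk_mono ?_ _ _ h2
          intro x hx
          obtain ⟨a, b, c⟩ := Finset.mem_filter.mp hx
          rcases Finset.mem_union.mp a with a | a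
          · exact Finset.mem_union.mpr (Or.inl (Finset.mem_union.mpr (Or.inl
              (Finset.mem_filter.mpr ⟨a, by omega, by omega⟩))))
          · exact Finset.mem_union.mpr (Or.inr a)
        · refine blk_mono ?_ _ _ (hU5 v hv h)
          intro x hx
          rcases Finset.mem_union.mp hx with a | a
          · exact Finset.mem_union.mpr (Or.inl (Finset.mem_union.mpr (Or.inr a)))
          · exact Finset.mem_union.mpr (Or.inr a)
    · -- replace
      push Not at hsmall
      refine ⟨Bi ∪ U', ?_, ?_, ?_, ?_, ?_⟩
      · intro x hx
        rcases Finset.mem_union.mp hx with hx | hx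
        · exact (Finset.mem_filter.mp hx).2.1
        · have := hU1 x hx; omega
      · have := Finset.card_union_le Bi U'
        omega
      · have := Finset.card_union_le Bi U'
        omega
      · intro j hj hne
        rcases Nat.lt_or_ge j t with hjt | hjt
        · rcases Bi.eq_empty_or_nonempty with hBe | hBn
          · have e : Bi ∪ U' = U' := by rw [hBe, Finset.empty_union]
            rw [e] at hne ⊢
            have e2 : U'.filter (fun v => j ≤ v.1) = U' := by
              apply Finset.filter_true_of_mem
              intro x hx
              have := hU1 x hx; omega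
            have e3 : U'.filter (fun v => t ≤ v.1) = U' := by
              apply Finset.filter_true_of_mem
              intro x hx
              exact hU1 x hx
            rw [e2] at hne ⊢
            have := hU4 t le_rfl (by rw [e3]; exact hne)
            rw [e3] at this
            omega
          · -- the count of levels
            have hcov : ∀ s, t' ≤ s → s < t → ∃ v ∈ B, t' ≤ m v ∧ m v ≤ s ∧ s ≤ v.1 := by
              intro s hs1 hs2
              rcases Nat.lt_or_ge t' (t - 1) with hlt | hge
              · -- a crossing
                have hcr : ∀ r, t' < r → r < t → ∃ v ∈ B, m v < r ∧ r ≤ v.1 := by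
                  intro r h1 h2
                  by_contra hcon
                  push Not at hcon
                  have := hmax r ⟨h2, fun v hv h3 => by have := hcon v hv h3; omega⟩
                  omega
                rcases Nat.lt_or_ge t' s with h | h
                · obtain ⟨v, hv, h1, h2⟩ := hcr s h hs2
                  refine ⟨v, hv, ?_, by omega, h2⟩
                  by_contra hcon
                  have := hgt' v hv (by omega)
                  omega
                · obtain ⟨v, hv, h1, h2⟩ := hcr (t' + 1) (by omega) (by omega)
                  refine ⟨v, hv, ?_, by omega, by omega⟩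
                  by_contra hcon
                  have := hgt' v hv (by omega)
                  omega
              · obtain ⟨v, hv⟩ := hBn
                obtain ⟨a, b, c⟩ := Finset.mem_filter.mp hv
                have hmv := hmle v
                have h1 : t' ≤ m v := by
                  by_contra hcon
                  have := hgt' v a (by omega)
                  omega
                exact ⟨v, a, h1, by omega, by omega⟩
            have hJ : ∀ r, t' ≤ r → r ≤ t →
                r ≤ t' + (S.filter (fun v => t' ≤ v.1 ∧ v.1 < r)).card := by
              intro r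
              induction r using Nat.strong_induction_on with
              | _ r ih =>
                intro h1 h2
                rcases Nat.lt_or_ge t' r with h | h
                · obtain ⟨v, hv, h3, h4, h5⟩ := hcov (r - 1) (by omega) (by omega)
                  have h6 := ih (m v) (by omega) h3 (by omega)
                  have h7 := cnt_low (hb v hv) (l := r - 1) h4 h5
                  change r - 1 + 1 ≤ (S.filter (fun x => m v ≤ x.1 ∧ x.1 ≤ r - 1)).card + m v at h7
                  have h8 : (S.filter (fun x => t' ≤ x.1 ∧ x.1 < m v)).card +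
                      (S.filter (fun x => m v ≤ x.1 ∧ x.1 ≤ r - 1)).card ≤
                      (S.filter (fun v => t' ≤ v.1 ∧ v.1 < r)).card := by
                    rw [← Finset.card_union_of_disjoint]
                    · apply Finset.card_le_card
                      intro x hx
                      rcases Finset.mem_union.mp hx with hx | hx
                      · obtain ⟨a, b, c⟩ := Finset.mem_filter.mp hx
                        exact Finset.mem_filter.mpr ⟨a, b, by omega⟩
                      · obtain ⟨a, b, c⟩ := Finset.mem_filter.mp hx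
                        exact Finset.mem_filter.mpr ⟨a, by omega, by omega⟩
                    · rw [Finset.disjoint_left]
                      intro x hx hx'
                      have h1 := (Finset.mem_filter.mp hx).2.2
                      have h2 := (Finset.mem_filter.mp hx').2.1
                      omega
                  omega
                · omega
            have hJt := hJ t (by omega) le_rfl
            have hSi : (S.filter (fun v => t' ≤ v.1 ∧ v.1 < t)).card ≤ Ui.card + Wi.card := by
              rw [hS, Finset.filter_union]
              exact Finset.card_union_le _ _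
            have h1 : ((Bi ∪ U').filter (fun v => j ≤ v.1)).card ≤ Bi.card + U'.card :=
              (Finset.card_le_card (Finset.filter_subset _ _)).trans (Finset.card_union_le _ _)
            have h2 := hU t' (Finset.card_pos.mp (by omega))
            omega
        · have h1 : (Bi ∪ U').filter (fun v => j ≤ v.1) ⊆ U'.filter (fun v => j ≤ v.1) := by
            intro v hv
            obtain ⟨a, b⟩ := Finset.mem_filter.mp hv
            rcases Finset.mem_union.mp a with a | a
            · have := (Finset.mem_filter.mp a).2.2
              omega
            · exact Finset.mem_filter.mpr ⟨a, b⟩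
          have h2 := hU4 j hjt (hne.mono h1)
          have h3 := Finset.card_le_card h1
          omega
      · intro v hv hvt
        rcases Nat.lt_or_ge v.1 t with h | h
        · exact blk_of_mem _ _ (Finset.mem_union.mpr (Or.inl (Finset.mem_union.mpr (Or.inl
            (Finset.mem_filter.mpr ⟨hv, hvt, h⟩)))))
        · refine blk_mono ?_ _ _ (hU5 v hv h)
          intro x hx
          rcases Finset.mem_union.mp hx with a | a
          · exact Finset.mem_union.mpr (Or.inl (Finset.mem_union.mpr (Or.inr a)))
          · exact Finset.mem_union.mpr (Or.inr a)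
  have hall : ∀ t, P t → P 0 := by
    intro t
    induction t using Nat.strong_induction_on with
    | _ t ih =>
      intro h
      rcases Nat.eq_zero_or_pos t with h0 | h0
      · subst h0; exact h
      · obtain ⟨t', h1, h2⟩ := hstep t h0 h
        exact ih t' h1 h2
  -- the start
  have htop : ∃ t, P t := by
    refine ⟨B.sup (fun v => v.1) + 1, ?_, ∅, ?_, ?_, ?_, ?_, ?_⟩
    · intro v hv _
      have := Finset.le_sup (f := fun v : ℕ × ℕ => v.1) hv
      omega
    · intro x hx; simp at hx
    · simp
    · simp
    · intro j _ hj; simp at hj
    · intro v hv h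
      have := Finset.le_sup (f := fun v : ℕ × ℕ => v.1) hv
      omega
  obtain ⟨t, ht⟩ := htop
  obtain ⟨_, U', _, h2, _, h4, h5⟩ := hall t ht
  refine ⟨U', fun j hj => h4 j (Nat.zero_le _) hj, ?_, fun v hv => h5 v hv (Nat.zero_le _)⟩
  have h6 : (B.filter (fun v => 0 ≤ v.1)).card ≤ B.card :=
    Finset.card_le_card (Finset.filter_subset _ _)
  have h7 : (W.filter (fun v => 0 ≤ v.1)).card ≤ W.card :=
    Finset.card_le_card (Finset.filter_subset _ _)
  omega

/-- **The pebbling bound.** Black sets `B t` and white sets `W t` of size at most `p`, as in a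
black-white pebbling in which a step `w` may be repeated, allow only heights at most `6 p`. -/
theorem pyr {p h T : ℕ} (B W : ℕ → Finset (ℕ × ℕ))
    (h0 : B 0 = ∅) (hWT : W T = ∅) (hroot : (h, 0) ∈ B T)
    (hst : ∀ t < T, (B (t + 1) ⊆ B t ∧ W t ⊆ W (t + 1)) ∨
      ∃ w : ℕ × ℕ, B (t + 1) ⊆ insert w (B t) ∧ W t ⊆ insert w (W (t + 1)) ∧
        ∀ i, w.1 = i + 1 → (i, w.2) ∈ B t ∪ W (t + 1) ∧ (i, w.2 + 1) ∈ B t ∪ W (t + 1))
    (hcB : ∀ t ≤ T, (B t).card ≤ p) (hcW : ∀ t ≤ T, (W t).card ≤ p) : h ≤ 6 * p := by
  classical
  have key : ∀ t, t ≤ T → ∃ U : Finset (ℕ × ℕ), Mes p U ∧ ∀ v ∈ B t, blk (U ∪ W t) v.1 v.2 := by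
    intro t
    induction t with
    | zero =>
      intro _
      refine ⟨∅, ?_, ?_⟩
      · intro j hj; simp at hj
      · intro v hv; rw [h0] at hv; simp at hv
    | succ t ih =>
      intro ht
      obtain ⟨U, hU, hb⟩ := ih (by omega)
      rcases hst t (by omega) with ⟨h1, h2⟩ | ⟨w, h1, h2, h3⟩
      · refine ⟨U, hU, fun v hv => ?_⟩
        exact blk_mono (Finset.union_subset_union_right h2) _ _ (hb v (h1 hv))
      · -- compress first
        obtain ⟨U', hU', hc', hb'⟩ := compress hU (hcW t (by omega)) (hcB t (by omega)) hb
        rcases Nat.eq_zero_or_pos w.1 with hw | hw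
        · refine ⟨insert w U', ?_, ?_⟩
          · intro j hj
            rcases Nat.eq_zero_or_pos j with hj0 | hj0
            · subst hj0
              have h5 : ((insert w U').filter (fun v => 0 ≤ v.1)).card ≤ 3 * p + 1 :=
                calc _ ≤ (insert w U').card := Finset.card_le_card (Finset.filter_subset _ _)
                  _ ≤ U'.card + 1 := Finset.card_insert_le _ _
                  _ ≤ _ := by omega
              omega
            · have h5 : (insert w U').filter (fun v => j ≤ v.1) = U'.filter (fun v => j ≤ v.1) := by
                rw [Finset.filter_insert, if_neg (by omega)]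
              rw [h5] at hj ⊢
              exact hU' j hj
          · have hsub : U' ∪ W t ⊆ insert w U' ∪ W (t + 1) := by
              intro x hx
              rcases Finset.mem_union.mp hx with hx | hx
              · exact Finset.mem_union.mpr (Or.inl (Finset.mem_insert_of_mem hx))
              · rcases Finset.mem_insert.mp (h2 hx) with h | h
                · exact Finset.mem_union.mpr (Or.inl (by rw [h]; exact Finset.mem_insert_self _ _))
                · exact Finset.mem_union.mpr (Or.inr h)
            intro v hv
            rcases Finset.mem_insert.mp (h1 hv) with h | h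
            · rw [h]
              exact blk_of_mem _ _ (Finset.mem_union.mpr (Or.inl (Finset.mem_insert_self _ _)))
            · exact blk_mono hsub _ _ (hb' v h)
        · obtain ⟨i, hi⟩ : ∃ i, w.1 = i + 1 := ⟨w.1 - 1, by omega⟩
          obtain ⟨h4, h5⟩ := h3 i hi
          have hsub : U' ∪ W t ⊆ insert w (U' ∪ W (t + 1)) := by
            intro x hx
            rcases Finset.mem_union.mp hx with hx | hx
            · exact Finset.mem_insert_of_mem (Finset.mem_union.mpr (Or.inl hx))
            · rcases Finset.mem_insert.mp (h2 hx) with h | h
              · rw [h]; exact Finset.mem_insert_self _ _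
              · exact Finset.mem_insert_of_mem (Finset.mem_union.mpr (Or.inr h))
          have hpr : ∀ j, (i, j) ∈ B t ∪ W (t + 1) → blk (U' ∪ W (t + 1)) i j := by
            intro j hj
            rcases Finset.mem_union.mp hj with hj | hj
            · exact blk_low (w := w) i j (by omega) (blk_mono hsub _ _ (hb' (i, j) hj))
            · exact blk_of_mem _ _ (Finset.mem_union.mpr (Or.inr hj))
          have hwb : blk (U' ∪ W (t + 1)) w.1 w.2 := by
            rw [hi]
            exact Or.inr ⟨hpr _ h4, hpr _ h5⟩
          have htr : ∀ v ∈ insert w (U' ∪ W (t + 1)), blk (U' ∪ W (t + 1)) v.1 v.2 := by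
            intro v hv
            rcases Finset.mem_insert.mp hv with h | h
            · rw [h]; exact hwb
            · exact blk_of_mem _ _ h
          refine ⟨U', hU', fun v hv => ?_⟩
          rcases Finset.mem_insert.mp (h1 hv) with h | h
          · rw [h]; exact hwb
          · exact blk_trans htr _ _ (blk_mono hsub _ _ (hb' v h))
  obtain ⟨U, hU, hb⟩ := key T le_rfl
  have h1 := hb _ hroot
  rw [hWT, Finset.union_empty] at h1
  have h2 := cnt h 0 h1
  set m := fh U h 0
  rcases (U.filter (fun v => m ≤ v.1)).eq_empty_or_nonempty with he | hne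
  · have h3 := keep (m := m) h 0 le_rfl h1
    rw [he] at h3
    obtain ⟨x, _, _, h4⟩ := col h 0 h3
    simp at h4
  · have h3 := hU m hne
    have h4 : 0 < (U.filter (fun v => m ≤ v.1)).card := Finset.card_pos.mpr hne
    omega

end Pool.Agent.J4H24.TK
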