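import Pool.Agent.J4H24.TH.Cuts
import Pool.Agent.J4H24.TK.Pyr

/-!
# A cut of a run with many needed nodes: linear form
-/

namespace Pool.Agent.J4H24.TK

open Pool.Agent.J4H24.TH

variable {k : ℕ} {Q : Type}

open Classical in
/-- **Cut lemma.** Some cut of a run has many needed nodes. -/
theorem exists_cut2 {P : Prog k Q} {h : ℕ} {f : Var k → Fin k}
    {L : EL k Q} {st : ℕ → Q} (hW : Within h P) (R : Rn P h f L st)
    {p : ℕ} (hp : 1 ≤ p) (hM : 6 * p < h) (ne : ℕ → ℕ × ℕ → ℕ)
    (hne : ∀ x v, v.1 + v.2 ≤ h → Prd L (ne x v) v) :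
    ∃ t, p ≤ (Bl h L ne t).card ∨ p ≤ (Wh h L ne t).card := by
  by_contra hcon
  push Not at hcon
  have h1 := TK.pyr (p := p) (h := h) (T := L.length) (fun t => Br h L ne t) (fun t => Wh h L ne t)
    ?_ ?_ ?_ ?_ ?_ ?_
  · omega
  · -- start
    show Br h L ne 0 = ∅
    have : ¬ ∃ y, y < 0 ∧ Prd L y (h, 0) := by rintro ⟨y, hy, _⟩; omega
    unfold Br
    rw [if_neg this]
    unfold Bl
    apply Finset.filter_eq_empty_iff.mpr
    rintro v _ ⟨x, _, _, hx⟩
    omega
  · -- end
    show Wh h L ne L.length = ∅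
    unfold Wh
    apply Finset.filter_eq_empty_iff.mpr
    rintro v hv ⟨x, _, _, hx⟩
    have := (hne x v (mem_Py.mp hv)).lt
    omega
  · -- root
    show (h, 0) ∈ Br h L ne L.length
    obtain ⟨y, hy⟩ := R.all (h, 0) (by simp)
    unfold Br
    rw [if_pos ⟨y, hy.lt, hy⟩]
    exact Finset.mem_insert_self _ _
  · -- steps
    intro t ht
    show (Br h L ne (t + 1) ⊆ Br h L ne t ∧ Wh h L ne t ⊆ Wh h L ne (t + 1)) ∨
      ∃ w : ℕ × ℕ, Br h L ne (t + 1) ⊆ insert w (Br h L ne t) ∧
        Wh h L ne t ⊆ insert w (Wh h L ne (t + 1)) ∧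
        ∀ i, w.1 = i + 1 → (i, w.2) ∈ Br h L ne t ∪ Wh h L ne (t + 1) ∧
          (i, w.2 + 1) ∈ Br h L ne t ∪ Wh h L ne (t + 1)
    have hsub : ∀ s, Bl h L ne s ⊆ Br h L ne s := by
      intro s
      unfold Br
      split_ifs
      · exact Finset.subset_insert _ _
      · exact le_rfl
    -- general inclusions
    have gB : ∀ v ∈ Bl h L ne (t + 1), v ∈ Bl h L ne t ∨ Prd L t v := by
      intro v hv
      obtain ⟨hv1, x, hx1, hx2, hx3⟩ := Finset.mem_filter.mp hv
      rcases Nat.lt_or_ge (ne x v) t with hlt | hge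
      · exact Or.inl (Finset.mem_filter.mpr ⟨hv1, x, by omega, hx2, hlt⟩)
      · have e : ne x v = t := by omega
        have := hne x v (mem_Py.mp hv1)
        rw [e] at this
        exact Or.inr this
    have gR : ∀ v ∈ Br h L ne (t + 1), v ∈ Br h L ne t ∨ Prd L t v := by
      intro v hv
      unfold Br at hv
      split_ifs at hv with hc
      · rcases Finset.mem_insert.mp hv with hv | hv
        · obtain ⟨y, hy1, hy2⟩ := hc
          rcases Nat.lt_or_ge y t with hlt | hge
          · left
            unfold Br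
            rw [if_pos ⟨y, hlt, hy2⟩, hv]
            exact Finset.mem_insert_self _ _
          · have e : y = t := by omega
            rw [e] at hy2
            right; rw [hv]; exact hy2
        · exact (gB v hv).imp (fun h => hsub t h) id
      · exact (gB v hv).imp (fun h => hsub t h) id
    have gW : ∀ v ∈ Wh h L ne t, v ∈ Wh h L ne (t + 1) ∨ Prd L t v := by
      intro v hv
      obtain ⟨hv1, x, hx1, hx2, hx3⟩ := Finset.mem_filter.mp hv
      rcases Nat.lt_or_ge t (ne x v) with hlt | hge
      · exact Or.inl (Finset.mem_filter.mpr ⟨hv1, x, by omega, hx2, hlt⟩)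
      · have e : ne x v = t := by omega
        have := hne x v (mem_Py.mp hv1)
        rw [e] at this
        exact Or.inr this
    rcases hLt : L[t]? with _ | e
    · rw [List.getElem?_eq_none_iff] at hLt; omega
    · obtain ⟨e, qe⟩ := e
      cases e with
      | none =>
        left
        have hno : ∀ v, ¬ Prd L t v := by
          rintro v ⟨y, c, q, hy, _⟩
          rw [hLt] at hy
          simp at hy
        exact ⟨fun v hv => (gR v hv).resolve_right (hno v),
          fun v hv => (gW v hv).resolve_right (hno v)⟩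
      | some xc =>
        obtain ⟨x, c⟩ := xc
        right
        have hun : ∀ v, Prd L t v → v = x.nod := by
          rintro v ⟨y, c', q, hy, hn⟩
          rw [hLt] at hy
          simp only [Option.some.injEq, Prod.mk.injEq] at hy
          rw [← hn, hy.1.1]
        refine ⟨x.nod, ?_, ?_, ?_⟩
        · intro v hv
          rcases gR v hv with h | h
          · exact Finset.mem_insert_of_mem h
          · rw [hun v h]; exact Finset.mem_insert_self _ _
        · intro v hv
          rcases gW v hv with h | h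
          · exact Finset.mem_insert_of_mem h
          · rw [hun v h]; exact Finset.mem_insert_self _ _
        · intro i hi
          cases x with
          | leaf j => simp [Var.nod] at hi
          | node i' j a b =>
            have hwi := mem_within hW R.hst hLt
            simp only [Var.nod] at hi hwi ⊢
            have hii : i' = i := by omega
            subst hii
            have hnode : ∀ v : ℕ × ℕ, (v = (i', j) ∨ v = (i', j + 1)) →
                v ∈ Br h L ne t ∪ Wh h L ne (t + 1) := by
              intro v hv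
              have hvh : v.1 + v.2 ≤ h := by
                rcases hv with hv | hv <;> rw [hv] <;> simp only <;> omega
              have hu : Use L t v := ⟨i', j, a, b, c, qe, hLt, hv⟩
              have hnt : ne t v ≠ t := by
                intro e
                have hpr := hne t v hvh
                rw [e] at hpr
                have := hun v hpr
                simp only [Var.nod] at this
                rcases hv with hv | hv <;> rw [hv] at this <;> simp at this
              rcases Nat.lt_or_gt_of_ne hnt with h | h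
              · exact Finset.mem_union.mpr (Or.inl (hsub t (Finset.mem_filter.mpr
                  ⟨mem_Py.mpr hvh, t, le_rfl, hu, h⟩)))
              · exact Finset.mem_union.mpr (Or.inr (Finset.mem_filter.mpr
                  ⟨mem_Py.mpr hvh, t, by omega, hu, by omega⟩))
            exact ⟨hnode _ (Or.inl rfl), hnode _ (Or.inr rfl)⟩
  · intro t _
    show (Br h L ne t).card ≤ p
    have := (hcon t).1
    unfold Br
    split_ifs
    · exact (Finset.card_insert_le _ _).trans (by omega)
    · omega
  · intro t _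
    exact (hcon t).2.le

/-- **The certificate** of a run. -/
theorem exists_cert2 {P : Prog k Q} {h : ℕ} {f : Var k → Fin k}
    {L : EL k Q} {st : ℕ → Q} (hW : Within h P) (R : Rn P h f L st)
    {p m : ℕ} (hp : 1 ≤ p) (hM : 6 * p < h) (hm : L.length < 2 ^ m) :
    ∃ (lo hi : ℕ → ℕ), (∀ i, lo i ≤ hi i ∧ hi i ≤ L.length) ∧
      ∃ (g : Fin p → Fin (h + 1) × Fin (h + 1)) (s : Fin p → Fin (m + 1)), Function.Injective g ∧
        ∀ l, Need L lo hi ((g l).1.val, (g l).2.val) (s l).val := by
  classical
  have hch : ∀ x : ℕ, ∀ v : ℕ × ℕ, v.1 + v.2 ≤ h →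
      ∃ y, Prd L y v ∧ ∀ y', Prd L y' v → dst x y ≤ dst x y' :=
    fun x v hv => exists_near x (R.all v hv)
  set ne : ℕ → ℕ × ℕ → ℕ := fun x v => if hv : v.1 + v.2 ≤ h then (hch x v hv).choose else 0
    with hne
  have hne1 : ∀ x v, v.1 + v.2 ≤ h → Prd L (ne x v) v ∧
      ∀ y', Prd L y' v → dst x (ne x v) ≤ dst x y' := by
    intro x v hv
    rw [hne]
    simp only [hv, dite_true]
    exact (hch x v hv).choose_spec
  -- from a set of needed nodes with scales to the certificate
  have fin : ∀ (S : Finset (ℕ × ℕ)) (lo hi : ℕ → ℕ), S ⊆ Py h → p ≤ S.card →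
      (∀ i, lo i ≤ hi i ∧ hi i ≤ L.length) →
      (∀ v ∈ S, ∃ s, s ≤ m ∧ Need L lo hi v s) →
      ∃ (lo hi : ℕ → ℕ), (∀ i, lo i ≤ hi i ∧ hi i ≤ L.length) ∧
      ∃ (g : Fin p → Fin (h + 1) × Fin (h + 1)) (s : Fin p → Fin (m + 1)), Function.Injective g ∧
        ∀ l, Need L lo hi ((g l).1.val, (g l).2.val) (s l).val := by
    intro S lo hi hS hc hlh hs
    obtain ⟨S', hS', hc'⟩ := Finset.exists_subset_card_eq hc
    let e := S'.equivFinOfCardEq hc'
    have hmem : ∀ l : Fin p, (e.symm l : ℕ × ℕ) ∈ S := fun l => hS' (e.symm l).2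
    have hPy : ∀ l : Fin p, (e.symm l : ℕ × ℕ).1 + (e.symm l : ℕ × ℕ).2 ≤ h :=
      fun l => mem_Py.mp (hS (hmem l))
    choose s hs1 hs2 using fun l : Fin p => hs _ (hmem l)
    refine ⟨lo, hi, hlh, fun l => (⟨(e.symm l : ℕ × ℕ).1, by have := hPy l; omega⟩,
      ⟨(e.symm l : ℕ × ℕ).2, by have := hPy l; omega⟩),
      fun l => ⟨s l, by have := hs1 l; omega⟩, ?_, ?_⟩
    · intro a b hab
      simp only [Prod.mk.injEq, Fin.mk.injEq] at hab
      have : (e.symm a : ℕ × ℕ) = e.symm b := Prod.ext hab.1 hab.2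
      exact e.symm.injective (Subtype.ext this)
    · intro l
      exact hs2 l
  obtain ⟨t, ht⟩ := exists_cut2 hW R hp hM ne (fun x v hv => (hne1 x v hv).1)
  rcases ht with ht | ht
  · -- black
    have htL : t ≤ L.length := by
      have : (Bl h L ne t).Nonempty := Finset.card_pos.mp (by omega)
      obtain ⟨v, hv⟩ := this
      obtain ⟨_, x, h1, h2, _⟩ := Finset.mem_filter.mp hv
      have := h2.lt
      omega
    refine fin (Bl h L ne t) (fun _ => t) (fun i => min (t + 2 ^ i) L.length)
      (Finset.filter_subset _ _) ht (fun i => ⟨le_min (Nat.le_add_right _ _) htL, min_le_right _ _⟩) ?_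
    intro v hv
    obtain ⟨hv1, x, hx1, hx2, hx3⟩ := Finset.mem_filter.mp hv
    have hxL := hx2.lt
    obtain ⟨i, hi1, hi2, hi3⟩ := exists_scale (n := x - t + 1) (m := m) (by omega) (by omega)
    refine ⟨i, hi1, ⟨x, hx1, lt_min (by omega) hxL, hx2⟩, ?_⟩
    intro i' hi' y hy1 hy2 hy3
    have h1 := (hne1 x v (mem_Py.mp hv1)).2 y hy3
    change t ≤ y at hy1
    have h2 : y < t + 2 ^ i := by
      have h3 : 2 ^ i' ≤ 2 ^ i := Nat.pow_le_pow_right (by norm_num) hi'
      have h4 : y < t + 2 ^ i' := lt_of_lt_of_le hy2 (min_le_left _ _)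
      omega
    unfold dst at h1
    omega
  · -- white
    refine fin (Wh h L ne t) (fun i => t - 2 ^ i) (fun _ => t)
      (Finset.filter_subset _ _) ht ?_ ?_
    · intro i
      refine ⟨Nat.sub_le _ _, ?_⟩
      have : (Wh h L ne t).Nonempty := Finset.card_pos.mp (by omega)
      obtain ⟨v, hv⟩ := this
      obtain ⟨hv1, x, h1, h2, h3⟩ := Finset.mem_filter.mp hv
      have := (hne1 x v (mem_Py.mp hv1)).1.lt
      omega
    intro v hv
    obtain ⟨hv1, x, hx1, hx2, hx3⟩ := Finset.mem_filter.mp hv
    have hyL := (hne1 x v (mem_Py.mp hv1)).1.lt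
    obtain ⟨i, hi1, hi2, hi3⟩ := exists_scale (n := t - x) (m := m) (by omega) (by omega)
    refine ⟨i, hi1, ⟨x, by show t - 2 ^ i ≤ x; omega, hx1, hx2⟩, ?_⟩
    intro i' hi' y hy1 hy2 hy3
    have h1 := (hne1 x v (mem_Py.mp hv1)).2 y hy3
    change t - 2 ^ i' ≤ y at hy1
    change y < t at hy2
    have h2 : t ≤ y + 2 ^ i := by
      have h3 : 2 ^ i' ≤ 2 ^ i := Nat.pow_le_pow_right (by norm_num) hi'
      omega
    unfold dst at h1
    omega

end Pool.Agent.J4H24.TK
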