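import Pool.Agent.J4H24.TH.Avg
import Pool.Agent.J4H24.TK.Cuts

/-!
# The counting with the linear pebbling bound
-/

namespace Pool.Agent.J4H24.TK

open Pool.Agent.J4H24.TH

variable {k : ℕ} {Q : Type}

/-- **The finite form of the theorem.** -/
theorem bad_card2 [Fintype Q] {P : Prog k Q} {h p m : ℕ} (hp : 1 ≤ p) (hM : 6 * p < h)
    (hexc : ∀ a : Fin k, ∃ c : Fin k, c ≠ a) (a₀ : Fin k) (hW : Within h P) (hT : Thrifty P)
    (hQ : Fintype.card Q ≤ 2 ^ m) :
    (Bad P h a₀).card * k ^ p ≤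
      k ^ ((h + 1) ^ 2) * (((h + 1) ^ 2 * (m + 2)) ^ p * (2 ^ m * 2 ^ m) ^ (m + 2)) := by
  classical
  let V := Fin (h + 1) × Fin (h + 1)
  have hk : 0 < k := Fin.pos a₀
  rcases (Bad P h a₀).eq_empty_or_nonempty with he | hne
  · rw [he]; simp
  have hrun : ∀ u : {u : V → Fin k // u ∈ Bad P h a₀}, ∃ (d : (Fin p → V) ×
      (Fin p → Fin (m + 1 + 1)) × (Fin (m + 1 + 1) → Q × Q)) (L : EL k Q) (st : ℕ → Q)
      (lo hi : ℕ → ℕ), Cert P h (cst (ext h a₀ u.1)) L st d.1 d.2.1 d.2.2 lo hi := by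
    intro u
    obtain ⟨L, st, R, hlen⟩ := exists_run hT hexc (Finset.mem_filter.mp u.2).2
    have hL : L.length < 2 ^ (m + 1) := by
      rw [pow_succ]; omega
    obtain ⟨lo, hi, h1, g, s, h2, h3⟩ := exists_cert2 hW R hp hM hL
    exact ⟨(g, s, fun i => (st (lo i.val), st (hi i.val))), L, st, lo, hi,
      ⟨R, h1, fun i => rfl, h2, h3⟩⟩
  choose d L st lo hi hC using hrun
  have hV : Fintype.card V = (h + 1) ^ 2 := by
    simp only [V, Fintype.card_prod, Fintype.card_fin]; ring
  have hcinj : ∀ u, Function.Injective (d u).1 := fun u => (hC u).inj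
  have hpN : p ≤ (h + 1) ^ 2 := by
    obtain ⟨u₀, hu₀⟩ := hne
    have := Fintype.card_le_of_injective _ (hcinj ⟨u₀, hu₀⟩)
    rwa [hV, Fintype.card_fin] at this
  have hfib : ∀ b ∈ (Finset.univ : Finset {u : V → Fin k // u ∈ Bad P h a₀}).image d,
      ((Finset.univ : Finset {u : V → Fin k // u ∈ Bad P h a₀}).filter (fun u => d u = b)).card
        ≤ k ^ ((h + 1) ^ 2 - p) := by
    intro b hb
    obtain ⟨u₀, _, hu₀⟩ := Finset.mem_image.mp hb
    have hbinj : Function.Injective b.1 := by rw [← hu₀]; exact hcinj u₀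
    let G : {u : {u : V → Fin k // u ∈ Bad P h a₀} // d u = b} →
        ({v : V // v ∉ Set.range b.1} → Fin k) := fun u v => u.1.1 v.1
    have hG : Function.Injective G := by
      rintro ⟨u, hu⟩ ⟨u', hu'⟩ e
      apply Subtype.ext
      apply Subtype.ext
      have c1 := hC u
      have c2 := hC u'
      rw [hu] at c1
      rw [hu'] at c2
      refine cert_inj hT c1 c2 ?_
      intro v hv
      exact congrFun e ⟨v, hv⟩
    have h1 := Fintype.card_le_of_injective G hG
    rw [Fintype.card_fun, Fintype.card_fin] at h1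
    have h2 : Fintype.card {v : V // v ∉ Set.range b.1} = (h + 1) ^ 2 - p := by
      have h3 : Fintype.card {v : V // v ∈ Set.range b.1} = p := by
        have := Set.card_range_of_injective hbinj
        rw [Fintype.card_fin] at this
        exact this
      rw [Fintype.card_subtype_compl, hV]
      congr 1
    rw [h2, Fintype.card_subtype] at h1
    exact h1
  have hmain := Finset.card_le_mul_card_image
    (s := (Finset.univ : Finset {u : V → Fin k // u ∈ Bad P h a₀})) (f := d)
    (k ^ ((h + 1) ^ 2 - p)) hfib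
  have hD' : ((Finset.univ : Finset {u : V → Fin k // u ∈ Bad P h a₀}).image d).card ≤
      ((h + 1) ^ 2 * (m + 2)) ^ p * (2 ^ m * 2 ^ m) ^ (m + 2) := by
    refine (Finset.card_le_univ _).trans ?_
    have e1 : Fintype.card (Fin p → V) = ((h + 1) ^ 2) ^ p := by
      rw [Fintype.card_fun, hV, Fintype.card_fin]
    have e2 : Fintype.card (Fin p → Fin (m + 1 + 1)) = (m + 2) ^ p := by
      rw [Fintype.card_fun, Fintype.card_fin, Fintype.card_fin]
    have e3 : Fintype.card (Fin (m + 1 + 1) → Q × Q) =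
        (Fintype.card Q * Fintype.card Q) ^ (m + 2) := by
      rw [Fintype.card_fun, Fintype.card_prod, Fintype.card_fin]
    rw [Fintype.card_prod, Fintype.card_prod, e1, e2, e3,
      ← mul_assoc (((h + 1) ^ 2) ^ p), ← mul_pow]
    gcongr
  have hcard : (Finset.univ : Finset {u : V → Fin k // u ∈ Bad P h a₀}).card =
      (Bad P h a₀).card := by
    rw [Finset.card_univ, Fintype.card_coe]
  rw [hcard] at hmain
  calc (Bad P h a₀).card * k ^ p
      ≤ (k ^ ((h + 1) ^ 2 - p) * (((h + 1) ^ 2 * (m + 2)) ^ p *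
        (2 ^ m * 2 ^ m) ^ (m + 2))) * k ^ p :=
        Nat.mul_le_mul_right _ (hmain.trans (Nat.mul_le_mul_left _ hD'))
    _ = k ^ ((h + 1) ^ 2) * (((h + 1) ^ 2 * (m + 2)) ^ p * (2 ^ m * 2 ^ m) ^ (m + 2)) := by
        have : k ^ ((h + 1) ^ 2) = k ^ ((h + 1) ^ 2 - p) * k ^ p := by
          rw [← pow_add, Nat.sub_add_cancel hpN]
        rw [this]; ring


variable [NeZero k]

open Classical in
/-- **The finite average-case form.** -/
theorem avg_fin2 [Fintype Q] {P : Prog k Q} {h p m : ℕ} (hp : 1 ≤ p) (hM : 6 * p < h)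
    (hk2 : 2 ≤ k) (hW : Within h P) (hT : Thrifty P) (hQ : Fintype.card Q ≤ 2 ^ m)
    (A : Finset (Fin k)) (Φ : Set (EL k Q) → Prop) :
    (Good P h A Φ).card * k * k ^ p ≤ Fintype.card (TB h k) * (max A.card (k - A.card) * k ^ p +
      k ^ 2 * (((h + 1) ^ 2 * (m + 2)) ^ p * (2 ^ m * 2 ^ m) ^ (m + 2))) := by
  have hh : h ≠ 0 := by
    rintro rfl
    omega
  have hexc : ∀ a : Fin k, ∃ c : Fin k, c ≠ a := by
    have : Nontrivial (Fin k) := Fin.nontrivial_iff_two_le.mpr hk2
    exact fun a => exists_ne a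
  have h1 := good_card (P := P) hh A Φ
  have h2 := bad_card2 hp hM hexc 0 hW hT hQ
  have h3 := vec_count (Bad P h (0 : Fin k))
  have h4 : (BadG P h).card ≤ ((Finset.univ : Finset (TB h k)).filter
      (fun g => vec h (inp g) ∈ Bad P h 0)).card := by
    apply Finset.card_le_card
    intro g hg
    obtain ⟨L, hL, y, hy⟩ := (Finset.mem_filter.mp hg).2
    exact Finset.mem_filter.mpr ⟨Finset.mem_univ _, mem_bad hW hT hL hy 0⟩
  set D := ((h + 1) ^ 2 * (m + 2)) ^ p * (2 ^ m * 2 ^ m) ^ (m + 2) with hD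
  set N := k ^ ((h + 1) ^ 2) with hN
  have hN0 : 0 < N := by rw [hN]; positivity
  have h5 : (BadG P h).card * k ^ p ≤ Fintype.card (TB h k) * D := by
    have h6 : N * ((BadG P h).card * k ^ p) ≤ N * (Fintype.card (TB h k) * D) := by
      calc N * ((BadG P h).card * k ^ p)
          = ((BadG P h).card * N) * k ^ p := by ring
        _ ≤ (((Finset.univ : Finset (TB h k)).filter
            (fun g => vec h (inp g) ∈ Bad P h 0)).card * N) * k ^ p := by gcongr
        _ = Fintype.card (TB h k) * ((Bad P h (0 : Fin k)).card * k ^ p) := by rw [h3]; ring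
        _ ≤ Fintype.card (TB h k) * (N * D) := Nat.mul_le_mul_left _ h2
        _ = N * (Fintype.card (TB h k) * D) := by ring
    exact Nat.le_of_mul_le_mul_left h6 hN0
  calc (Good P h A Φ).card * k * k ^ p = (k * (Good P h A Φ).card) * k ^ p := by ring
    _ ≤ (max A.card (k - A.card) * Fintype.card (TB h k) + k ^ 2 * (BadG P h).card) * k ^ p :=
        Nat.mul_le_mul_right _ h1
    _ = max A.card (k - A.card) * Fintype.card (TB h k) * k ^ p +
        k ^ 2 * ((BadG P h).card * k ^ p) := by ring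
    _ ≤ max A.card (k - A.card) * Fintype.card (TB h k) * k ^ p +
        k ^ 2 * (Fintype.card (TB h k) * D) := by gcongr
    _ = _ := by ring

end Pool.Agent.J4H24.TK
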