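import Pool.Agent.J4H24.TK.Avg
import Pool.Agent.J4H24.TK.Asy

/-!
# The average-case theorem with the linear pebbling bound
-/

namespace Pool.Agent.J4H24.TK

open Pool.Agent.J4H24.TH

theorem th_main2 (h : ℕ) (hh : 10 ^ 4 ≤ h) (k : ℕ) [NeZero k] (hk : h ^ 3 ≤ k)
    (A : Finset (Fin k)) (Q : Type) [Fintype Q] (P : Prog k Q) (hW : Within h P)
    (hT : Thrifty P) (hQ : (Fintype.card Q : ℝ) <
      (2 : ℝ) ^ ((1 / 40 : ℝ) * √((h : ℝ) * Real.log k)))
    (Φ : Set (List (Option (Var k × Fin k) × Q)) → Prop) :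
    (Nat.card {g : Fin (h + 1) × Fin (h + 1) → Fin k → Fin k → Fin k //
        Φ (comps P (inp g)) ↔ val (inp g) h 0 ∈ A} : ℝ) ≤
      (((max A.card (k - A.card) : ℕ) : ℝ) / k + (k : ℝ) ^ (-((h : ℝ) / 100))) *
        Nat.card (Fin (h + 1) × Fin (h + 1) → Fin k → Fin k → Fin k) := by
  classical
  have hk2 : 2 ≤ k := by
    have h1 : 2 ≤ h := le_trans (by norm_num) hh
    have h2 : h ≤ h ^ 3 := Nat.le_self_pow (by norm_num) h
    omega
  have key := asym2 (G := (Good P h A Φ).card) (T := Fintype.card (TB h k))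
    (μ := max A.card (k - A.card)) hh hk hQ
    (fun _ _ hp hM hS => avg_fin2 hp hM hk2 hW hT hS A Φ)
  have e : Nat.card {g : Fin (h + 1) × Fin (h + 1) → Fin k → Fin k → Fin k //
      Φ (comps P (inp g)) ↔ val (inp g) h 0 ∈ A} = (Good P h A Φ).card := by
    unfold Good
    rw [Nat.card_eq_fintype_card, Fintype.card_subtype]
  rw [e, Nat.card_eq_fintype_card]
  exact key

end Pool.Agent.J4H24.TK
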