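import Pool.Agent.J4H24.GN.Fin
import Pool.Agent.J4H24.TK.Main

/-!
# GEN with the linear pebbling bound
-/

namespace Pool.Agent.J4H24.TK

open Pool.Agent.J4H24.GN
open Pool.Agent.J4H24.TH (Var val)
open Real

/-- **Small generating programs do not solve GEN.** -/
theorem gen_main2 (n : ℕ) (hn : 10 ^ 21 ≤ n) :
    ∃ (ι : Type) (_ : Fintype ι) (_ : Nonempty ι) (F : ι → Fin (n + 1) → Fin (n + 1) → Fin (n + 1)),
      ∀ (Q : Type) [Fintype Q] (P : Prog (n + 1) Q), Generating P →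
        (Fintype.card Q : ℝ) < (2 : ℝ) ^ ((n : ℝ) ^ (1 / 10 : ℝ) / 10) →
        ∀ Φ : Set (List (Option (Fin (n + 1) × Fin (n + 1) × Fin (n + 1)) × Q)) → Prop,
          (Nat.card {t : ι // Φ (comps P (F t)) ↔ Gen (F t) (Fin.last n)} : ℝ) ≤
            (1 / 2 + Real.exp (-(n : ℝ) ^ (1 / 5 : ℝ) / 6)) * Nat.card ι := by
  classical
  set x : ℝ := ((n : ℝ) / 3) ^ (1 / 5 : ℝ) with hx
  set h : ℕ := ⌊x⌋₊ with hh
  have hn0 : (10 : ℝ) ^ 21 ≤ n := by exact_mod_cast hn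
  have hnpos : (0 : ℝ) < n := lt_of_lt_of_le (by positivity) hn0
  have hx0 : 0 ≤ x := by positivity
  have hx5 : x ^ 5 = (n : ℝ) / 3 := by
    rw [hx, ← Real.rpow_natCast, ← Real.rpow_mul (by positivity)]
    norm_num
  have hhx : (h : ℝ) ≤ x := Nat.floor_le hx0
  have hxh : x < h + 1 := Nat.lt_floor_add_one x
  have hh4 : 10 ^ 4 ≤ h := by
    apply Nat.le_floor
    push_cast
    by_contra hc
    push Not at hc
    have := pow_lt_pow_left₀ hc hx0 (n := 5) (by norm_num)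
    rw [hx5] at this
    have h1 : ((10 : ℝ) ^ 4) ^ 5 * 3 ≤ n := le_trans (by norm_num) hn0
    linarith
  have hhR : (10 : ℝ) ^ 4 ≤ h := by exact_mod_cast hh4
  have hhpos : (0 : ℝ) < h := lt_of_lt_of_le (by positivity) hhR
  have h5 : (3 : ℝ) * h ^ 5 ≤ n := by
    have := pow_le_pow_left₀ hhpos.le hhx 5
    rw [hx5] at this
    linarith
  have h5' : (n : ℝ) ≤ 4 * h ^ 5 := by
    have h1 := pow_le_pow_left₀ hx0 hxh.le 5
    rw [hx5] at h1
    have h2 : ((h : ℝ) + 1) ≤ h * (1 + 1 / 10 ^ 4) := by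
      have : (1 : ℝ) ≤ h * (1 / 10 ^ 4) := by
        rw [mul_one_div, le_div_iff₀ (by positivity)]
        linarith
      linarith
    have h3 := pow_le_pow_left₀ (by positivity) h2 5
    rw [mul_pow] at h3
    have h4 : ((1 : ℝ) + 1 / 10 ^ 4) ^ 5 ≤ 4 / 3 := by norm_num
    have h6 : (0 : ℝ) ≤ (h : ℝ) ^ 5 := by positivity
    nlinarith
  set k : ℕ := 2 * h ^ 3 with hk
  have hkpos : 0 < k := by
    have : 0 < h := by omega
    positivity
  have : NeZero k := ⟨by omega⟩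
  have hcard : (h + 2) + ((h + 1) * ((h + 1) * k) + 1) ≤ n + 1 := by
    have h1 : ((h : ℝ) + 2) + ((h + 1) * ((h + 1) * (2 * h ^ 3)) + 1) ≤ 3 * h ^ 5 := by
      have e : ((h : ℝ) + 2) + ((h + 1) * ((h + 1) * (2 * h ^ 3)) + 1) =
          2 * h ^ 5 + (4 * h ^ 4 + 2 * h ^ 3 + h + 3) := by ring
      have h1 : (1 : ℝ) ≤ h := by linarith
      have h2 : (h : ℝ) ^ 3 ≤ h ^ 4 := pow_le_pow_right₀ h1 (by norm_num)
      have h3 : (h : ℝ) ≤ h ^ 4 := by
        calc (h : ℝ) = h ^ 1 := (pow_one _).symm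
          _ ≤ h ^ 4 := pow_le_pow_right₀ h1 (by norm_num)
      have h4 : (1 : ℝ) ≤ h ^ 4 := one_le_pow₀ h1
      have h6 : (10 : ℝ) * h ^ 4 ≤ h ^ 5 := by
        have : (h : ℝ) ^ 5 = h * h ^ 4 := by ring
        rw [this]
        apply mul_le_mul_of_nonneg_right (by linarith) (by positivity)
      rw [e]
      linarith
    have h2 : ((h : ℝ) + 2) + ((h + 1) * ((h + 1) * (2 * h ^ 3)) + 1) ≤ n := h1.trans h5
    have h3 : (h + 2) + ((h + 1) * ((h + 1) * k) + 1) ≤ n := by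
      rw [hk]
      exact_mod_cast h2
    omega
  obtain ⟨E, hE⟩ := exists_enc hcard
  -- the accepted values
  set A : Finset (Fin k) := Finset.univ.filter (fun a => a.val < h ^ 3) with hA
  have hAc : A.card = h ^ 3 := by
    have e : A = (Finset.univ : Finset (Fin (h ^ 3))).map
        (Fin.castLEEmb (by rw [hk]; omega : h ^ 3 ≤ k)) := by
      ext a
      simp only [hA, Finset.mem_filter, Finset.mem_univ, true_and, Finset.mem_map]
      constructor
      · intro ha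
        exact ⟨⟨a.val, ha⟩, Fin.ext rfl⟩
      · rintro ⟨b, hb⟩
        rw [← hb]
        exact b.isLt
    rw [e, Finset.card_map, Finset.card_univ, Fintype.card_fin]
  refine ⟨Fin (h + 1) × Fin (h + 1) → Fin k → Fin k → Fin k, inferInstance, ⟨fun _ _ _ => 0⟩,
    fun g => tab E A (TH.inp g), ?_⟩
  intro Q _ P hG hQ Φ
  -- estimates
  have hk0 : (0 : ℝ) < k := by exact_mod_cast hkpos
  have hlogk : 25 ≤ Real.log k := by
    have h1 : (10 : ℝ) ^ 12 ≤ k := by
      rw [hk]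
      push_cast
      have := pow_le_pow_left₀ (by positivity) hhR 3
      have h2 : ((10 : ℝ) ^ 4) ^ 3 = 10 ^ 12 := by norm_num
      have h3 : (0 : ℝ) ≤ (h : ℝ) ^ 3 := by positivity
      linarith
    have h2 := Real.log_le_log (by positivity) h1
    rw [Real.log_pow] at h2
    have h3 : (2.25 : ℝ) ≤ Real.log 10 := by
      have e : (10 : ℝ) = 2 ^ 3 * (5 / 4) := by norm_num
      rw [e, Real.log_mul (by norm_num) (by norm_num), Real.log_pow]
      have h4 := Real.log_two_gt_d9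
      have h5 : (1 - (5 / 4 : ℝ)⁻¹) ≤ Real.log (5 / 4) := Real.one_sub_inv_le_log_of_pos (by norm_num)
      norm_num at h5 ⊢
      linarith
    push_cast at h2
    linarith
  have hn10 : (n : ℝ) ^ (1 / 10 : ℝ) ≤ 1.15 * (h : ℝ) ^ (1 / 2 : ℝ) := by
    have h1 : (n : ℝ) ^ (1 / 10 : ℝ) ≤ (4 * (h : ℝ) ^ 5) ^ (1 / 10 : ℝ) :=
      Real.rpow_le_rpow hnpos.le h5' (by norm_num)
    rw [Real.mul_rpow (by norm_num) (by positivity)] at h1
    have h2 : ((h : ℝ) ^ 5) ^ (1 / 10 : ℝ) = (h : ℝ) ^ (1 / 2 : ℝ) := by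
      rw [← Real.rpow_natCast, ← Real.rpow_mul hhpos.le]
      norm_num
    have h3 : (4 : ℝ) ^ (1 / 10 : ℝ) ≤ 1.15 := by
      have h4 : (4 : ℝ) ≤ 1.15 ^ (10 : ℕ) := by norm_num
      have h6 := Real.rpow_le_rpow (by norm_num) h4 (show (0 : ℝ) ≤ 1 / 10 by norm_num)
      rw [← Real.rpow_natCast, ← Real.rpow_mul (by norm_num)] at h6
      norm_num at h6 ⊢
      exact h6
    rw [h2] at h1
    exact h1.trans (mul_le_mul_of_nonneg_right h3 (by positivity))
  have hsq : ((h : ℝ) ^ (1 / 2 : ℝ)) ^ 2 = h := by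
    rw [← Real.rpow_natCast, ← Real.rpow_mul hhpos.le]
    norm_num
  have hQ' : (Fintype.card Q : ℝ) < (2 : ℝ) ^ ((1 / 40 : ℝ) * √((h : ℝ) * Real.log k)) := by
    refine lt_of_lt_of_le hQ (Real.rpow_le_rpow_of_exponent_le (by norm_num) ?_)
    have h1 : 5 * (h : ℝ) ^ (1 / 2 : ℝ) ≤ √((h : ℝ) * Real.log k) := by
      apply Real.le_sqrt_of_sq_le
      have e : (5 * (h : ℝ) ^ (1 / 2 : ℝ)) ^ 2 = h * 25 := by
        rw [mul_pow, hsq]
        ring
      rw [e]
      exact mul_le_mul_of_nonneg_left hlogk (by positivity)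
    have h2 : (0 : ℝ) ≤ (h : ℝ) ^ (1 / 2 : ℝ) := by positivity
    linarith
  have hn5 : (n : ℝ) ^ (1 / 5 : ℝ) ≤ 1.35 * h := by
    have e1 : (n : ℝ) ^ (1 / 5 : ℝ) = ((n : ℝ) ^ (1 / 10 : ℝ)) ^ 2 := by
      rw [← Real.rpow_natCast, ← Real.rpow_mul hnpos.le]
      norm_num
    rw [e1]
    have h1 := pow_le_pow_left₀ (by positivity) hn10 2
    rw [mul_pow, hsq] at h1
    refine h1.trans ?_
    norm_num
    linarith
  have herr : (k : ℝ) ^ (-((h : ℝ) / 100)) ≤ Real.exp (-(n : ℝ) ^ (1 / 5 : ℝ) / 6) := by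
    rw [Real.rpow_def_of_pos hk0]
    apply Real.exp_le_exp.mpr
    have h2 : 25 * (h : ℝ) ≤ Real.log k * h := mul_le_mul_of_nonneg_right hlogk hhpos.le
    have h3 : Real.log k * (-((h : ℝ) / 100)) = -(Real.log k * h) / 100 := by ring
    rw [h3]
    linarith
  have hmax : (((max A.card (k - A.card) : ℕ) : ℝ) / k) = 1 / 2 := by
    have e : max A.card (k - A.card) = h ^ 3 := by
      rw [hAc, hk]
      have : 2 * h ^ 3 - h ^ 3 = h ^ 3 := by omega
      rw [this, max_self]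
    rw [e, hk]
    push_cast
    have : (h : ℝ) ^ 3 ≠ 0 := by positivity
    field_simp
  -- the translation
  have key := th_main2 h hh4 k (by rw [hk]; omega) A Q (tprog E A P) (within_tr E A P)
    (thrifty_tr E A P hG) hQ'
    (fun S => Φ {L | Path P P.start L ∧ ∃ L' ∈ S, TrL E A L L'})
  rw [hmax] at key
  have e : Nat.card {t : Fin (h + 1) × Fin (h + 1) → Fin k → Fin k → Fin k //
      Φ (comps P (tab E A (TH.inp t))) ↔ Gen (tab E A (TH.inp t)) (Fin.last n)} =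
      Nat.card {g : Fin (h + 1) × Fin (h + 1) → Fin k → Fin k → Fin k //
        (Φ {L | Path P P.start L ∧ ∃ L' ∈ TH.comps (tprog E A P) (TH.inp g), TrL E A L L'}) ↔
          val (TH.inp g) h 0 ∈ A} := by
    congr 1
    congr 1
    funext g
    rw [← comps_tr, ← hE, gen_top]
  rw [e]
  refine key.trans ?_
  apply mul_le_mul_of_nonneg_right _ (by positivity)
  linarith

end Pool.Agent.J4H24.TK
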